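import Pool.Agent.helper45.PV.SpecG

/-!
# Project pv (MP_376aaf_an), row pvg:CIN
-/

set_option autoImplicit false

open scoped Matrix Topology
open Filter

namespace Pool.Agent.PV

open Pool.Agent.CZ

section

attribute [local instance] Matrix.linftyOpNormedRing Matrix.linftyOpNormedAlgebra

theorem CIN_cont {A ι : Type} [NormedRing A] [NormedAlgebra ℂ A] [CompleteSpace A] [Fintype ι]
    [DecidableEq ι] (x : (Matrix ι ι A)ˣ) :
    ContinuousAt (Ring.inverse : Matrix ι ι A → Matrix ι ι A) (x : Matrix ι ι A) := by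
  have hc : @CompleteSpace (Matrix ι ι A)
      ((Matrix.linftyOpNormedRing (n := ι) (α := A)).toMetricSpace.toPseudoMetricSpace.toUniformSpace) :=
    (inferInstance : CompleteSpace (ι → ι → A))
  have hs : HasSummableGeomSeries (Matrix ι ι A) :=
    @instHasSummableGeomSeriesOfCompleteSpace (Matrix ι ι A) Matrix.linftyOpNormedRing hc
  exact NormedRing.inverse_continuousAt x

end

theorem CIN : CIN_stmt := by
  intro A K ι _ _ _ _ _ _ γ hγ
  refine ⟨⟨fun t => Ring.inverse (γ t), ?_⟩, ?_⟩
  · rw [continuous_iff_continuousAt]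
    intro t
    obtain ⟨x, hx⟩ := hγ t
    have h := CIN_cont x
    rw [hx] at h
    exact ContinuousAt.comp (f := γ) (g := (Ring.inverse : Matrix ι ι A → Matrix ι ι A)) h
      (γ.continuous.continuousAt)
  · intro t
    exact ⟨Ring.mul_inverse_cancel _ (hγ t), Ring.inverse_mul_cancel _ (hγ t)⟩

end Pool.Agent.PV
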