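import Pool.Agent.helper53.PV.SpecF

/-!
# Project pv (MP_376aaf_an), row pvf:FSP
-/

set_option autoImplicit false

open scoped Topology
open MeasureTheory Filter

namespace Pool.Agent.PV

open Pool.Agent.CZ

theorem FSP (hFAP : FAP_stmt) (hFNM : FNM_stmt) (hFSB : FSB_stmt) : FSP_stmt := by
  intro X₀ Y _ _ _ _ _ _ α₀ x₀ f hmin hloc x U hU
  obtain ⟨V, hVo, hxV, hVU, S, hS⟩ := hFSB X₀ Y α₀ x₀ f hloc x U hU
  refine ⟨V, hVo, hxV, hVU, ?_⟩
  intro _ _ μ hμ hinv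
  refine measure_mono_null hS ?_
  refine (measure_biUnion_null_iff (I := (S : Set ℤ)) S.countable_toSet).2 ?_
  intro k _
  exact hFNM X₀ Y α₀ x₀ f (fun n hn => hFAP X₀ α₀ hmin x₀ n hn) μ hμ hinv k

end Pool.Agent.PV
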